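import Mathlib
import Pool.Agent.W2helper1.WM.Slab

/-!
Problem MP_9f60e7_an (wave maps into hyperbolic space): smooth data without a smooth solution on any
time slab.

Let `d ≥ 3` and let `H` be hyperbolic space of any dimension `n + 1 ≥ 2`.  Smooth initial data for which
the Cauchy problem has no smooth solution on any slab `[0, τ) × ℝ^d`, `τ > 0`, are dense in
`H^s × H^{s-1}` for every integer `s < d/2`, i.e. below the scaling critical regularity (for `d = 3`: in
`H^1 × L^2`).  The breakdown happens at all points of an arbitrary separated sequence `x_0, x_1, …`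
of `ℝ^d`, within the backward light cones over arbitrarily small balls around the `x_i`; in each of
these cones there is a solution up to the vertex, and every solution leaves every compact subset of `H`
at the vertex.

The starting result `DenseBlowUp` gives breakdown at one point at a positive time.  Here countably many of
its perturbations are glued; the sum of their norms is small, although the data are of course not
uniformly smooth.

The definitions are below and in the starting files `Pool.Agent.Y276.WM.Un` (`Gam`, `wm`) and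
`Pool.Agent.Y276.WM.Asm` (`cone`, `IsWaveMap`). Hyperbolic space is the upper half space
`{y : y_n > 0}`, `n = Fin.last n`.
-/

set_option autoImplicit false

namespace Pool.Agent.Results.MP_9f60e7_an.NoTimeSlab

open Filter Topology MeasureTheory
open Pool.Agent.Y276.WM

variable {d n : ℕ}

/-- the square of the Euclidean distance -/
def sqDist (x y : Fin d → ℝ) : ℝ := ∑ k, (x k - y k) ^ 2

/-- smooth initial data `(u0, u1)` with values in the upper half space -/
def IsData (u0 u1 : (Fin d → ℝ) → (Fin (n + 1) → ℝ)) : Prop :=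
  ContDiff ℝ (⊤ : ℕ∞) u0 ∧ ContDiff ℝ (⊤ : ℕ∞) u1 ∧ ∀ z, 0 < u0 z (Fin.last n)

/-- all derivatives of `u - v` of order `m` with `2 (m + a) < d` have `L²` norm less than `√ε` -/
def Near (a : ℕ) (ε : ℝ) (u v : (Fin d → ℝ) → (Fin (n + 1) → ℝ)) : Prop :=
  ∀ m : ℕ, 2 * (m + a) < d →
    ∫⁻ z, ‖iteratedFDeriv ℝ m (fun z => u z - v z) z‖ₑ ^ 2 < ENNReal.ofReal ε

/-- The wave map with data `(u0, u1)` breaks down at the point `(T, y)` of space-time: there is a solution
in the backward cone without its vertex `(T, y)`, the height of every such solution at `(t, y)` tends to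
`0` for `t → T`, and there is no solution on a set which contains the closed cone. -/
def BreaksDown (u0 u1 : (Fin d → ℝ) → (Fin (n + 1) → ℝ)) (T : ℝ) (y : Fin d → ℝ) : Prop :=
  (∃ u, IsWaveMap (cone T y \ {Fin.cons T y}) u0 u1 u) ∧
  (∀ u, IsWaveMap (cone T y \ {Fin.cons T y}) u0 u1 u →
    Tendsto (fun t => u (Fin.cons t y) (Fin.last n)) (𝓝[<] T) (𝓝 0)) ∧
  ∀ (Ω : Set (Fin (d + 1) → ℝ)) (u : (Fin (d + 1) → ℝ) → (Fin (n + 1) → ℝ)),
    cone T y ⊆ Ω → ¬ IsWaveMap Ω u0 u1 u

theorem result (d n : ℕ) (hd : 3 ≤ d) (hn : 1 ≤ n) (v0 v1 : (Fin d → ℝ) → (Fin (n + 1) → ℝ))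
    (hv : IsData v0 v1)
    -- the points and the radii
    (x : ℕ → Fin d → ℝ) (hx : ∀ i j, i ≠ j → 1 ≤ sqDist (x i) (x j))
    (r : ℕ → ℝ) (hr : ∀ i, 0 < r i) (ε : ℝ) (hε : 0 < ε) :
    ∃ u0 u1 : (Fin d → ℝ) → (Fin (n + 1) → ℝ), IsData u0 u1 ∧
      -- the data are changed only in the given balls, and by little
      (∀ z, (∀ i, r i ^ 2 ≤ sqDist z (x i)) → u0 z = v0 z ∧ u1 z = v1 z) ∧
      Near 0 ε u0 v0 ∧ Near 1 ε u1 v1 ∧
      -- breakdown over every one of the balls
      (∀ i, ∃ T : ℝ, 0 < T ∧ T < r i ∧ BreaksDown u0 u1 T (x i)) ∧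
      -- no solution on any time slab
      ∀ (τ : ℝ) (u : (Fin (d + 1) → ℝ) → (Fin (n + 1) → ℝ)), 0 < τ →
        ¬ IsWaveMap {P | 0 ≤ P 0 ∧ P 0 < τ} u0 u1 u := by
  obtain ⟨u0, u1, h1, h2, h3, h4, h5, h6, h7, h8⟩ :=
    Pool.Agent.W2helper1.WM.slab d n hd hn v0 v1 hv.1 hv.2.1 hv.2.2 x hx r hr ε hε
  exact ⟨u0, u1, ⟨h1, h2, h3⟩, h4, fun m hm => h5 m (by simpa using hm), fun m hm => h6 m hm, h7, h8⟩

end Pool.Agent.Results.MP_9f60e7_an.NoTimeSlab
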